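import Pool.Agent.H69.LQ.Lib
import Pool.Agent.H69.LQ.Targets1
import Pool.Agent.H78.LQ.JS

/-! Row H0 of the board `lq1_modules`: the gain from the holes near the centre. -/

set_option autoImplicit false

open MeasureTheory Metric Set
open scoped ENNReal
open Pool.Agent.H85.LK (E adm lam Ann)
open Pool.Agent.H69.LQ

namespace Pool.Agent.H21.LQ1

/-! ### Algebra at a point -/

theorem ab_le (x c α : ℝ) (hα : 0 < α) (y : ℝ) (hy : |y| ≤ c) :
    x * y ≤ α * x ^ 2 + c ^ 2 / (4 * α) := by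
  have h1 : y ^ 2 ≤ c ^ 2 := sq_le_sq' (abs_le.1 hy).1 (abs_le.1 hy).2
  have h2 : x * y ≤ α * x ^ 2 + y ^ 2 / (4 * α) := by
    have h3 : α * x ^ 2 + y ^ 2 / (4 * α) - x * y = (2 * α * x - y) ^ 2 / (4 * α) := by
      field_simp
      ring
    have h4 : 0 ≤ (2 * α * x - y) ^ 2 / (4 * α) := by positivity
    linarith
  have h5 : y ^ 2 / (4 * α) ≤ c ^ 2 / (4 * α) := by gcongr
  linarith

theorem div_sq {N : ℕ} (P : Fin N → Fin N → ℝ) :
    (∑ i, P i i) ^ 2 ≤ N * ∑ i, ∑ j, P i j ^ 2 := by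
  have h1 : (∑ i, P i i) ^ 2 ≤ N * ∑ i, P i i ^ 2 := by
    have h2 := sq_sum_le_card_mul_sum_sq (s := (Finset.univ : Finset (Fin N)))
      (f := fun i => P i i)
    rw [Finset.card_univ, Fintype.card_fin] at h2
    exact h2
  refine h1.trans ?_
  gcongr with i _
  exact Finset.single_le_sum (f := fun j => P i j ^ 2) (fun j _ => sq_nonneg _)
    (Finset.mem_univ i)

theorem curl_sq {N : ℕ} (P : Fin N → Fin N → ℝ) :
    ∑ i, ∑ j, (P j i - P i j) ^ 2 ≤ 4 * ∑ i, ∑ j, P i j ^ 2 := by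
  have h1 : ∀ i j, (P j i - P i j) ^ 2 ≤ 2 * P j i ^ 2 + 2 * P i j ^ 2 := by
    intro i j
    nlinarith [sq_nonneg (P j i + P i j)]
  have h2 : ∑ i, ∑ j, (P j i - P i j) ^ 2 ≤ ∑ i, ∑ j, (2 * P j i ^ 2 + 2 * P i j ^ 2) :=
    Finset.sum_le_sum fun i _ => Finset.sum_le_sum fun j _ => h1 i j
  have h3 : ∑ i, ∑ j, (2 * P j i ^ 2 + 2 * P i j ^ 2) = 4 * ∑ i, ∑ j, P i j ^ 2 := by
    have h4 : ∑ i, ∑ j, P j i ^ 2 = ∑ i, ∑ j, P i j ^ 2 := Finset.sum_comm
    simp only [Finset.sum_add_distrib, ← Finset.mul_sum]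
    rw [h4]
    ring
  linarith

/-- the mixed terms -/
theorem pt_mix {N : ℕ} (P Q : Fin N → Fin N → ℝ) (w ξ : Fin N → ℝ) (f c s₁ α β M : ℝ)
    (hf : 0 ≤ f) (hα : 0 < α) (hβ : 0 < β) (hM : 0 ≤ M)
    (h1 : |(∑ i, Q i i) - f| ≤ c) (h2 : f ≠ 0 → ∑ i, P i i ≤ -((N : ℝ) - s₁))
    (h3 : ∀ i j, |Q j i - Q i j| ≤ c) :
    (∑ i, P i i) * (∑ i, Q i i) + 1 / 2 * (∑ i, ∑ j, (P j i - P i j) * (Q j i - Q i j)) -
        M * ∑ i, w i * ξ i ≤
      -((N : ℝ) - s₁) * f + α * (N + 2) * (∑ i, ∑ j, P i j ^ 2) +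
        (1 + (N : ℝ) ^ 2 / 2) * (c ^ 2 / (4 * α)) + M * β * (∑ i, w i ^ 2) +
        M / (4 * β) * ∑ i, ξ i ^ 2 := by
  have e1 : (∑ i, P i i) * (∑ i, Q i i) =
      (∑ i, P i i) * f + (∑ i, P i i) * ((∑ i, Q i i) - f) := by ring
  have e2 : (∑ i, P i i) * f ≤ -((N : ℝ) - s₁) * f := by
    by_cases h : f = 0
    · rw [h, mul_zero, mul_zero]
    · exact mul_le_mul_of_nonneg_right (h2 h) hf
  have e3 := ab_le (∑ i, P i i) c α hα _ h1
  have e4 := div_sq P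
  have e5 : ∑ i, ∑ j, (P j i - P i j) * (Q j i - Q i j) ≤
      ∑ i, ∑ j, (α * (P j i - P i j) ^ 2 + c ^ 2 / (4 * α)) :=
    Finset.sum_le_sum fun i _ => Finset.sum_le_sum fun j _ => ab_le _ c α hα _ (h3 i j)
  have e6 : ∑ i : Fin N, ∑ j : Fin N, (α * (P j i - P i j) ^ 2 + c ^ 2 / (4 * α)) =
      α * (∑ i, ∑ j, (P j i - P i j) ^ 2) + (N : ℝ) ^ 2 * (c ^ 2 / (4 * α)) := by
    simp only [Finset.sum_add_distrib, ← Finset.mul_sum, Finset.sum_const, Finset.card_univ,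
      Fintype.card_fin, nsmul_eq_mul]
    ring
  have e7 := curl_sq P
  have e8 : -(M * ∑ i, w i * ξ i) ≤ M * β * (∑ i, w i ^ 2) + M / (4 * β) * ∑ i, ξ i ^ 2 := by
    have h4 : ∀ i, -(w i * ξ i) ≤ β * w i ^ 2 + ξ i ^ 2 / (4 * β) := by
      intro i
      have h5 := ab_le (w i) |ξ i| β hβ (-ξ i) (by rw [abs_neg])
      rw [sq_abs] at h5
      linarith
    have h6 : ∑ i, -(w i * ξ i) ≤ ∑ i, (β * w i ^ 2 + ξ i ^ 2 / (4 * β)) :=
      Finset.sum_le_sum fun i _ => h4 i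
    have h7 : ∑ i, (β * w i ^ 2 + ξ i ^ 2 / (4 * β)) =
        β * (∑ i, w i ^ 2) + (∑ i, ξ i ^ 2) / (4 * β) := by
      rw [Finset.sum_add_distrib, ← Finset.mul_sum, Finset.sum_div]
    rw [h7, Finset.sum_neg_distrib] at h6
    have h8 := mul_le_mul_of_nonneg_left h6 hM
    calc -(M * ∑ i, w i * ξ i) = M * -(∑ i, w i * ξ i) := by ring
      _ ≤ M * (β * (∑ i, w i ^ 2) + (∑ i, ξ i ^ 2) / (4 * β)) := h8
      _ = _ := by ring
  have e9 : α * (∑ i, P i i) ^ 2 ≤ α * (N * ∑ i, ∑ j, P i j ^ 2) :=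
    mul_le_mul_of_nonneg_left e4 hα.le
  have e10 : α * (∑ i, ∑ j, (P j i - P i j) ^ 2) ≤ α * (4 * ∑ i, ∑ j, P i j ^ 2) :=
    mul_le_mul_of_nonneg_left e7 hα.le
  rw [e1]
  linarith

/-- the quadratic terms -/
theorem pt_quad {N : ℕ} (Q : Fin N → Fin N → ℝ) (f c : ℝ) (hf : 0 ≤ f) (hf1 : f ≤ 1)
    (h1 : |(∑ i, Q i i) - f| ≤ c) (h2 : ((∑ i, Q i i) - f) * f = 0)
    (h3 : ∀ i j, |Q j i - Q i j| ≤ c) :
    (∑ i, Q i i) * (∑ i, Q i i) + 1 / 2 * (∑ i, ∑ j, (Q j i - Q i j) * (Q j i - Q i j)) ≤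
      f + (1 + (N : ℝ) ^ 2 / 2) * c ^ 2 := by
  have e1 : (∑ i, Q i i) * (∑ i, Q i i) = f ^ 2 + ((∑ i, Q i i) - f) ^ 2 := by
    linear_combination 2 * h2
  have e2 : ((∑ i, Q i i) - f) ^ 2 ≤ c ^ 2 := sq_le_sq' (abs_le.1 h1).1 (abs_le.1 h1).2
  have e3 : ∑ i, ∑ j, (Q j i - Q i j) * (Q j i - Q i j) ≤ ∑ _i : Fin N, ∑ _j : Fin N, c ^ 2 :=
    Finset.sum_le_sum fun i _ => Finset.sum_le_sum fun j _ => by
      have := sq_le_sq' (abs_le.1 (h3 i j)).1 (abs_le.1 (h3 i j)).2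
      nlinarith
  have e4 : ∑ _i : Fin N, ∑ _j : Fin N, c ^ 2 = (N : ℝ) ^ 2 * c ^ 2 := by
    simp only [Finset.sum_const, Finset.card_univ, Fintype.card_fin, nsmul_eq_mul]
    ring
  have e5 : f ^ 2 ≤ f := by nlinarith
  rw [e1]
  linarith

/-! ### Derivatives -/

theorem norm_fd {N : ℕ} (D : E N →L[ℝ] ℝ) :
    ‖D‖ ^ 2 = ∑ i, D (EuclideanSpace.single i 1) ^ 2 := by
  have h1 : ‖(InnerProductSpace.toDual ℝ (E N)).symm D‖ = ‖D‖ :=
    LinearIsometryEquiv.norm_map _ _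
  rw [← h1, EuclideanSpace.norm_sq_eq]
  refine Finset.sum_congr rfl fun i _ => ?_
  have h2 : inner ℝ ((InnerProductSpace.toDual ℝ (E N)).symm D)
      (EuclideanSpace.single i (1 : ℝ)) = D (EuclideanSpace.single i 1) :=
    InnerProductSpace.toDual_symm_apply
  have h3 : inner ℝ ((InnerProductSpace.toDual ℝ (E N)).symm D)
      (EuclideanSpace.single i (1 : ℝ)) = ((InnerProductSpace.toDual ℝ (E N)).symm D) i := by
    rw [EuclideanSpace.inner_single_right]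
    simp
  rw [← h2, h3, Real.norm_eq_abs, sq_abs]

theorem pd_cont {N : ℕ} (j : Fin N) (f : E N → ℝ) (hf : ContDiff ℝ (⊤ : ℕ∞) f) :
    Continuous (pd j f) := by
  unfold pd
  exact (hf.continuous_fderiv (by simp)).clm_apply continuous_const

theorem pd_mul {N : ℕ} (j : Fin N) (c : ℝ) (f : E N → ℝ) (hf : ContDiff ℝ (⊤ : ℕ∞) f) (x : E N) :
    pd j (fun x => c * f x) x = c * pd j f x := by
  unfold pd
  rw [fderiv_const_mul ((hf.differentiable (by simp)) x)]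
  rfl

theorem pd_zero {N : ℕ} (j : Fin N) (f : E N → ℝ) (r : ℝ) (h : ∀ x, r ≤ ‖x‖ → f x = 0) (x : E N)
    (hx : r < ‖x‖) : pd j f x = 0 := by
  have h1 : f =ᶠ[nhds x] fun _ => 0 := by
    have h2 : IsOpen {y : E N | r < ‖y‖} := isOpen_lt continuous_const continuous_norm
    filter_upwards [h2.mem_nhds hx] with y hy
    exact h y (le_of_lt hy)
  unfold pd
  rw [h1.fderiv_eq]
  simp

theorem pd_on {N : ℕ} (j : Fin N) (f g : E N → ℝ) (G : Set (E N)) (hG : IsOpen G)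
    (h : ∀ x ∈ G, f x = -g x) (x : E N) (hx : x ∈ G) : pd j f x = -pd j g x := by
  have h1 : f =ᶠ[nhds x] fun y => -g y := by
    filter_upwards [hG.mem_nhds hx] with y hy
    exact h y hy
  unfold pd
  rw [h1.fderiv_eq, fderiv_fun_neg]
  rfl

/-- continuous functions supported in a ball are integrable -/
theorem int_supp {N : ℕ} (F : E N → ℝ) (a : ℝ) (hF : Continuous F)
    (h : ∀ x, a ≤ ‖x‖ → F x = 0) : Integrable F := by
  apply hF.integrable_of_hasCompactSupport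
  refine HasCompactSupport.intro (isCompact_closedBall (0 : E N) a) fun x hx => ?_
  apply h
  rw [mem_closedBall_zero_iff, not_le] at hx
  exact hx.le

theorem int_ball {N : ℕ} (F : E N → ℝ) (a : ℝ) (hF : Continuous F) :
    IntegrableOn F (ball (0 : E N) a) :=
  (hF.continuousOn.integrableOn_compact (isCompact_closedBall (0 : E N) a)).mono_set
    ball_subset_closedBall

theorem int_eq {N : ℕ} (F : E N → ℝ) (a : ℝ) (h : ∀ x, a ≤ ‖x‖ → F x = 0) :
    ∫ x in ball (0 : E N) a, F x = ∫ x, F x := by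
  refine setIntegral_eq_integral_of_forall_compl_eq_zero fun x hx => h x ?_
  rw [mem_ball_zero_iff, not_lt] at hx
  exact hx

/-- the derivative of the eigenfunction at the centre -/
theorem pd_gT {N : ℕ} (L : ℝ) (hN : 2 ≤ N) (i : Fin N)
    (hs : ContDiff ℝ (⊤ : ℕ∞) (gT L (ee i) : E N → ℝ)) : pd i (gT L (ee i)) 0 = 1 := by
  have hν : (0 : ℝ) < (N : ℝ) / 2 + 1 := by positivity
  obtain ⟨-, hJ0, hJd, -⟩ := Pool.Agent.H78.LQ.pf_JS ((N : ℝ) / 2 + 1) hν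
  have hn : ‖(EuclideanSpace.single i (1 : ℝ) : E N)‖ = 1 := by simp
  have h1 : HasDerivAt (fun t : ℝ => gT L (ee i) (t • (EuclideanSpace.single i (1 : ℝ) : E N)))
      (pd i (gT L (ee i)) 0) 0 := by
    have h2 : HasDerivAt (fun t : ℝ => t • (EuclideanSpace.single i (1 : ℝ) : E N))
        (EuclideanSpace.single i (1 : ℝ) : E N) 0 := by
      have h3 := (hasDerivAt_id (0 : ℝ)).smul_const (EuclideanSpace.single i (1 : ℝ) : E N)
      simpa using h3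
    have h4 : HasFDerivAt (gT L (ee i) : E N → ℝ) (fderiv ℝ (gT L (ee i)) 0)
        ((0 : ℝ) • (EuclideanSpace.single i (1 : ℝ) : E N)) := by
      rw [zero_smul]
      exact ((hs.differentiable (by simp)) 0).hasFDerivAt
    exact h4.comp_hasDerivAt (0 : ℝ) h2
  have h5 : (fun t : ℝ => gT L (ee i) (t • (EuclideanSpace.single i (1 : ℝ) : E N))) =
      fun t => t * J ((N : ℝ) / 2 + 1) (L * t ^ 2 / 4) := by
    funext t
    unfold gT ee
    rw [inner_smul_right, norm_smul, hn, mul_one, Real.norm_eq_abs, sq_abs,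
      real_inner_self_eq_norm_sq, hn]
    ring
  rw [h5] at h1
  have h6 : HasDerivAt (fun t : ℝ => L * t ^ 2 / 4) (L * (2 * 0) / 4) 0 := by
    have h7 := ((hasDerivAt_pow 2 (0 : ℝ)).const_mul L).div_const 4
    simpa using h7
  have h8 : HasDerivAt (fun t : ℝ => J ((N : ℝ) / 2 + 1) (L * t ^ 2 / 4))
      (-(J ((N : ℝ) / 2 + 1 + 1) (L * (0 : ℝ) ^ 2 / 4) / ((N : ℝ) / 2 + 1)) *
        (L * (2 * 0) / 4)) 0 := (hJd _).comp (0 : ℝ) h6
  have h9 := (hasDerivAt_id (0 : ℝ)).mul h8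
  have h10 := h1.unique h9
  rw [h10]
  simp [hJ0]

/-- the divergence of the eigenfunctions near the centre -/
theorem dv_low {N : ℕ} (L s : ℝ) (hN : 2 ≤ N) (hs : 0 < s)
    (hg : ∀ i : Fin N, ContDiff ℝ (⊤ : ℕ∞) (gT L (ee i) : E N → ℝ)) :
    ∃ r : ℝ, 0 < r ∧ ∀ x : E N, ‖x‖ < r → (N : ℝ) - s ≤ ∑ i, pd i (gT L (ee i)) x := by
  have hc : Continuous fun x : E N => ∑ i, pd i (gT L (ee i)) x :=
    continuous_finsetSum _ fun i _ => pd_cont i _ (hg i)
  have h0 : ∑ i : Fin N, pd i (gT L (ee i)) (0 : E N) = N := by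
    rw [Finset.sum_congr rfl fun i _ => pd_gT L hN i (hg i)]
    simp
  have h1 := Metric.continuousAt_iff.1 (hc.continuousAt (x := (0 : E N))) s hs
  obtain ⟨r, hr, h2⟩ := h1
  refine ⟨r, hr, fun x hx => ?_⟩
  have h3 := h2 (x := x) (by rw [dist_zero_right]; exact hx)
  rw [h0, Real.dist_eq] at h3
  have := (abs_lt.1 h3).1
  linarith

/-- the inequality for the field `ξ` -/
theorem core {N : ℕ} (L μ a r s₁ t c α β : ℝ) (w ξ : Fin N → E N → ℝ) (f : E N → ℝ)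
    (hL : 0 < L) (hra : r < a) (hα : 0 < α) (hβ : 0 < β)
    (hDC : T_DC)
    (hw : ∀ i, ContDiff ℝ (⊤ : ℕ∞) (w i))
    (hξ : ∀ i, ContDiff ℝ (⊤ : ℕ∞) (ξ i) ∧ ∀ x, r ≤ ‖x‖ → ξ i x = 0)
    (hf : Continuous f) (hf1 : ∀ x, 0 ≤ f x ∧ f x ≤ 1) (hf0 : ∀ x, r ≤ ‖x‖ → f x = 0)
    (hd : ∀ x, |dv ξ x - f x| ≤ c) (hd0 : ∀ x, (dv ξ x - f x) * f x = 0)
    (hcu : ∀ i j x, |cu ξ i j x| ≤ c)
    (hfw : ∀ x, f x ≠ 0 → dv w x ≤ -((N : ℝ) - s₁))
    (h0 : 0 ≤ ∑ i, PP L μ a (w i) + 2 * N * ((∑ i, ∫ x, gd (w i) (ξ i) x) -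
      μ ^ 2 * L * ∑ i, ∫ x, w i x * ξ i x) + (N : ℝ) ^ 2 * ∑ i, ∫ x, gd (ξ i) (ξ i) x)
    (h1 : 2 * N * (α * (N + 2)) ≤ t) (h2 : 2 * N * (μ ^ 2 * L * β) ≤ t) :
    (2 * N * ((N : ℝ) - s₁) - (N : ℝ) ^ 2) * (∫ x, f x) ≤
      ∑ i, (PP L μ a (w i) + t * HH a (w i)) +
        (2 * N * ((1 + (N : ℝ) ^ 2 / 2) * (c ^ 2 / (4 * α))) +
          (N : ℝ) ^ 2 * ((1 + (N : ℝ) ^ 2 / 2) * c ^ 2)) * volume.real (ball (0 : E N) a) +
        2 * N * (μ ^ 2 * L / (4 * β)) * ∑ i, ∫ x, ξ i x ^ 2 := by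
  have hcs : ∀ i, ContDiff ℝ (⊤ : ℕ∞) (ξ i) ∧ HasCompactSupport (ξ i) := by
    intro i
    refine ⟨(hξ i).1, HasCompactSupport.intro (isCompact_closedBall (0 : E N) r) fun x hx => ?_⟩
    apply (hξ i).2
    rw [mem_closedBall_zero_iff, not_le] at hx
    exact hx.le
  have hNs : (0 : ℝ) ≤ N := Nat.cast_nonneg N
  -- continuity
  have cw : ∀ i, Continuous (w i) := fun i => (hw i).continuous
  have cξ : ∀ i, Continuous (ξ i) := fun i => (hξ i).1.continuous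
  have cpw : ∀ i j, Continuous (pd j (w i)) := fun i j => pd_cont j _ (hw i)
  have cpξ : ∀ i j, Continuous (pd j (ξ i)) := fun i j => pd_cont j _ (hξ i).1
  have cdw : Continuous (dv w) := continuous_finsetSum _ fun i _ => cpw i i
  have cdξ : Continuous (dv ξ) := continuous_finsetSum _ fun i _ => cpξ i i
  have ccw : ∀ i j, Continuous (cu w i j) := fun i j => (cpw j i).sub (cpw i j)
  have ccξ : ∀ i j, Continuous (cu ξ i j) := fun i j => (cpξ j i).sub (cpξ i j)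
  -- vanishing
  have zξ : ∀ i x, a ≤ ‖x‖ → ξ i x = 0 := fun i x hx => (hξ i).2 x (hra.le.trans hx)
  have zp : ∀ i j x, a ≤ ‖x‖ → pd j (ξ i) x = 0 := fun i j x hx =>
    pd_zero j (ξ i) r (hξ i).2 x (lt_of_lt_of_le hra hx)
  have zd : ∀ x, a ≤ ‖x‖ → dv ξ x = 0 := fun x hx =>
    Finset.sum_eq_zero fun i _ => zp i i x hx
  have zc : ∀ i j x, a ≤ ‖x‖ → cu ξ i j x = 0 := fun i j x hx => by
    unfold cu
    rw [zp j i x hx, zp i j x hx, sub_zero]
  -- the mixed terms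
  have hmix : (∑ i, ∫ x, gd (w i) (ξ i) x) - μ ^ 2 * L * ∑ i, ∫ x, w i x * ξ i x =
      ∫ x in ball (0 : E N) a, (dv w x * dv ξ x +
        1 / 2 * (∑ i, ∑ j, cu w i j x * cu ξ i j x) - μ ^ 2 * L * ∑ i, w i x * ξ i x) := by
    have i1 : Integrable fun x => dv w x * dv ξ x :=
      int_supp _ a (cdw.mul cdξ) fun x hx => by rw [zd x hx, mul_zero]
    have i2 : ∀ i j, Integrable fun x => cu w i j x * cu ξ i j x := fun i j =>
      int_supp _ a ((ccw i j).mul (ccξ i j)) fun x hx => by rw [zc i j x hx, mul_zero]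
    have i3 : ∀ i, Integrable fun x => w i x * ξ i x := fun i =>
      int_supp _ a ((cw i).mul (cξ i)) fun x hx => by rw [zξ i x hx, mul_zero]
    have i2s : Integrable fun x => ∑ i, ∑ j, cu w i j x * cu ξ i j x :=
      integrable_finsetSum _ fun i _ => integrable_finsetSum _ fun j _ => i2 i j
    have i3s : Integrable fun x => ∑ i, w i x * ξ i x := integrable_finsetSum _ fun i _ => i3 i
    have i12 : Integrable fun x => dv w x * dv ξ x +
        1 / 2 * (∑ i, ∑ j, cu w i j x * cu ξ i j x) := i1.add (i2s.const_mul _)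
    rw [int_eq (fun x => dv w x * dv ξ x +
        1 / 2 * (∑ i, ∑ j, cu w i j x * cu ξ i j x) - μ ^ 2 * L * ∑ i, w i x * ξ i x) a,
      integral_sub i12 (i3s.const_mul _),
      integral_add i1 (i2s.const_mul _), integral_const_mul, integral_const_mul,
      integral_finsetSum _ fun i _ => i3 i,
      integral_finsetSum _ fun i _ => integrable_finsetSum _ fun j _ => i2 i j,
      hDC N w ξ hw hcs]
    · congr 3
      refine Finset.sum_congr rfl fun i _ => ?_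
      rw [integral_finsetSum _ fun j _ => i2 i j]
    · intro x hx
      have e1 : ∀ i j, cu w i j x * cu ξ i j x = 0 := fun i j => by rw [zc i j x hx, mul_zero]
      have e2 : ∀ i, w i x * ξ i x = 0 := fun i => by rw [zξ i x hx, mul_zero]
      simp only [e1, e2, zd x hx, mul_zero, Finset.sum_const_zero, add_zero, sub_zero]
  have hquad : (∑ i, ∫ x, gd (ξ i) (ξ i) x) =
      ∫ x in ball (0 : E N) a, (dv ξ x * dv ξ x +
        1 / 2 * (∑ i, ∑ j, cu ξ i j x * cu ξ i j x)) := by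
    have i1 : Integrable fun x => dv ξ x * dv ξ x :=
      int_supp _ a (cdξ.mul cdξ) fun x hx => by rw [zd x hx, mul_zero]
    have i2 : ∀ i j, Integrable fun x => cu ξ i j x * cu ξ i j x := fun i j =>
      int_supp _ a ((ccξ i j).mul (ccξ i j)) fun x hx => by rw [zc i j x hx, mul_zero]
    have i2s : Integrable fun x => ∑ i, ∑ j, cu ξ i j x * cu ξ i j x :=
      integrable_finsetSum _ fun i _ => integrable_finsetSum _ fun j _ => i2 i j
    rw [int_eq (fun x => dv ξ x * dv ξ x +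
        1 / 2 * (∑ i, ∑ j, cu ξ i j x * cu ξ i j x)) a,
      integral_add i1 (i2s.const_mul _), integral_const_mul,
      integral_finsetSum _ fun i _ => integrable_finsetSum _ fun j _ => i2 i j,
      hDC N ξ ξ (fun i => (hξ i).1) hcs]
    · congr 2
      refine Finset.sum_congr rfl fun i _ => ?_
      rw [integral_finsetSum _ fun j _ => i2 i j]
    · intro x hx
      have e1 : ∀ i j, cu ξ i j x * cu ξ i j x = 0 := fun i j => by rw [zc i j x hx, mul_zero]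
      simp only [e1, zd x hx, mul_zero, Finset.sum_const_zero, add_zero]
  have hfi : ∫ x in ball (0 : E N) a, f x = ∫ x, f x :=
    int_eq f a fun x hx => hf0 x (hra.le.trans hx)
  have hξi : ∀ i, ∫ x in ball (0 : E N) a, ξ i x ^ 2 = ∫ x, ξ i x ^ 2 := fun i =>
    int_eq (fun x => ξ i x ^ 2) a fun x hx => by
      change ξ i x ^ 2 = 0
      rw [zξ i x hx]
      ring
  have hfd : ∀ i x, ‖fderiv ℝ (w i) x‖ ^ 2 = ∑ j, pd j (w i) x ^ 2 := fun i x =>
    norm_fd (fderiv ℝ (w i) x)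
  have hHH : ∑ i, HH a (w i) = ∫ x in ball (0 : E N) a,
      ((∑ i, ∑ j, pd j (w i) x ^ 2) + ∑ i, w i x ^ 2) := by
    have e1 : ∀ x, (∑ i, ∑ j, pd j (w i) x ^ 2) + ∑ i, w i x ^ 2 =
        ∑ i, (‖fderiv ℝ (w i) x‖ ^ 2 + w i x ^ 2) := by
      intro x
      rw [Finset.sum_add_distrib, Finset.sum_congr rfl fun i _ => hfd i x]
    simp only [e1]
    rw [integral_finsetSum]
    · rfl
    · intro i _
      apply int_ball
      simp only [hfd]
      exact (continuous_finsetSum _ fun j _ => (cpw i j).pow 2).add ((cw i).pow 2)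
  -- bound of the mixed terms
  have hM : 0 ≤ μ ^ 2 * L := by positivity
  have b1 : 2 * N * (∫ x in ball (0 : E N) a, (dv w x * dv ξ x +
        1 / 2 * (∑ i, ∑ j, cu w i j x * cu ξ i j x) - μ ^ 2 * L * ∑ i, w i x * ξ i x)) ≤
      -(2 * N * ((N : ℝ) - s₁)) * (∫ x, f x) + t * (∑ i, HH a (w i)) +
        2 * N * ((1 + (N : ℝ) ^ 2 / 2) * (c ^ 2 / (4 * α))) * volume.real (ball (0 : E N) a) +
        2 * N * (μ ^ 2 * L / (4 * β)) * ∑ i, ∫ x, ξ i x ^ 2 := by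
    have e1 : -(2 * N * ((N : ℝ) - s₁)) * (∫ x, f x) + t * (∑ i, HH a (w i)) +
        2 * N * ((1 + (N : ℝ) ^ 2 / 2) * (c ^ 2 / (4 * α))) * volume.real (ball (0 : E N) a) +
        2 * N * (μ ^ 2 * L / (4 * β)) * ∑ i, ∫ x, ξ i x ^ 2 =
        ∫ x in ball (0 : E N) a, (-(2 * N * ((N : ℝ) - s₁)) * f x +
          t * ((∑ i, ∑ j, pd j (w i) x ^ 2) + ∑ i, w i x ^ 2) +
          2 * N * ((1 + (N : ℝ) ^ 2 / 2) * (c ^ 2 / (4 * α))) +
          2 * N * (μ ^ 2 * L / (4 * β)) * ∑ i, ξ i x ^ 2) := by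
      have j1 : IntegrableOn (fun x => -(2 * N * ((N : ℝ) - s₁)) * f x) (ball (0 : E N) a) :=
        int_ball _ a (continuous_const.mul hf)
      have j2 : IntegrableOn (fun x => t * ((∑ i, ∑ j, pd j (w i) x ^ 2) + ∑ i, w i x ^ 2))
          (ball (0 : E N) a) := by
        apply int_ball
        exact continuous_const.mul ((continuous_finsetSum _ fun i _ =>
          continuous_finsetSum _ fun j _ => (cpw i j).pow 2).add
          (continuous_finsetSum _ fun i _ => (cw i).pow 2))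
      have j3 : IntegrableOn (fun _ : E N => 2 * N * ((1 + (N : ℝ) ^ 2 / 2) *
          (c ^ 2 / (4 * α)))) (ball (0 : E N) a) := int_ball _ a continuous_const
      have j5 : ∀ i, IntegrableOn (fun x => ξ i x ^ 2) (ball (0 : E N) a) := fun i =>
        int_ball _ a ((cξ i).pow 2)
      have j4 : IntegrableOn (fun x => 2 * N * (μ ^ 2 * L / (4 * β)) * ∑ i, ξ i x ^ 2)
          (ball (0 : E N) a) :=
        int_ball _ a (continuous_const.mul (continuous_finsetSum _ fun i _ => (cξ i).pow 2))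
      have j12 : IntegrableOn (fun x => -(2 * N * ((N : ℝ) - s₁)) * f x +
          t * ((∑ i, ∑ j, pd j (w i) x ^ 2) + ∑ i, w i x ^ 2)) (ball (0 : E N) a) := j1.add j2
      have j123 : IntegrableOn (fun x => -(2 * N * ((N : ℝ) - s₁)) * f x +
          t * ((∑ i, ∑ j, pd j (w i) x ^ 2) + ∑ i, w i x ^ 2) +
          2 * N * ((1 + (N : ℝ) ^ 2 / 2) * (c ^ 2 / (4 * α)))) (ball (0 : E N) a) := j12.add j3
      have q4 : ∫ x in ball (0 : E N) a, 2 * N * (μ ^ 2 * L / (4 * β)) * ∑ i, ξ i x ^ 2 =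
          2 * N * (μ ^ 2 * L / (4 * β)) * ∑ i, ∫ x, ξ i x ^ 2 := by
        rw [integral_const_mul, integral_finsetSum _ fun i _ => j5 i,
          Finset.sum_congr rfl fun i _ => hξi i]
      have q3 : ∫ x in ball (0 : E N) a, 2 * N * ((1 + (N : ℝ) ^ 2 / 2) * (c ^ 2 / (4 * α))) =
          2 * N * ((1 + (N : ℝ) ^ 2 / 2) * (c ^ 2 / (4 * α))) *
            volume.real (ball (0 : E N) a) := by
        rw [setIntegral_const, smul_eq_mul, mul_comm]
      rw [integral_add j123 j4, integral_add j12 j3, integral_add j1 j2, q4, q3,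
        integral_const_mul, integral_const_mul, ← hHH, hfi]
    rw [e1, ← integral_const_mul]
    refine setIntegral_mono_on ?_ ?_ measurableSet_ball ?_
    · apply int_ball
      refine continuous_const.mul (((cdw.mul cdξ).add (continuous_const.mul ?_)).sub
        (continuous_const.mul ?_))
      · exact continuous_finsetSum _ fun i _ => continuous_finsetSum _ fun j _ =>
          (ccw i j).mul (ccξ i j)
      · exact continuous_finsetSum _ fun i _ => (cw i).mul (cξ i)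
    · apply int_ball
      refine (((continuous_const.mul hf).add (continuous_const.mul ?_)).add
        continuous_const).add (continuous_const.mul ?_)
      · exact (continuous_finsetSum _ fun i _ =>
          continuous_finsetSum _ fun j _ => (cpw i j).pow 2).add
          (continuous_finsetSum _ fun i _ => (cw i).pow 2)
      · exact continuous_finsetSum _ fun i _ => (cξ i).pow 2
    · intro x _
      have k1 := pt_mix (fun i j => pd j (w i) x) (fun i j => pd j (ξ i) x) (fun i => w i x)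
        (fun i => ξ i x) (f x) c s₁ α β (μ ^ 2 * L) (hf1 x).1 hα hβ hM (hd x) (hfw x)
        (fun i j => hcu i j x)
      have k2 : 0 ≤ ∑ i, ∑ j, pd j (w i) x ^ 2 :=
        Finset.sum_nonneg fun i _ => Finset.sum_nonneg fun j _ => sq_nonneg _
      have k3 : 0 ≤ ∑ i, w i x ^ 2 := Finset.sum_nonneg fun i _ => sq_nonneg _
      have k4 := mul_le_mul_of_nonneg_left k1 (by positivity : (0 : ℝ) ≤ 2 * N)
      have k5 := mul_le_mul_of_nonneg_right h1 k2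
      have k6 := mul_le_mul_of_nonneg_right h2 k3
      refine k4.trans ?_
      linarith
  have b2 : (∫ x in ball (0 : E N) a, (dv ξ x * dv ξ x +
        1 / 2 * (∑ i, ∑ j, cu ξ i j x * cu ξ i j x))) ≤
      (∫ x, f x) + ((1 + (N : ℝ) ^ 2 / 2) * c ^ 2) * volume.real (ball (0 : E N) a) := by
    have e1 : (∫ x, f x) + ((1 + (N : ℝ) ^ 2 / 2) * c ^ 2) * volume.real (ball (0 : E N) a) =
        ∫ x in ball (0 : E N) a, (f x + (1 + (N : ℝ) ^ 2 / 2) * c ^ 2) := by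
      rw [integral_add (int_ball _ a hf) (int_ball _ a continuous_const), setIntegral_const, hfi,
        smul_eq_mul]
      ring
    rw [e1]
    refine setIntegral_mono_on ?_ ?_ measurableSet_ball ?_
    · apply int_ball
      refine (cdξ.mul cdξ).add (continuous_const.mul ?_)
      exact continuous_finsetSum _ fun i _ => continuous_finsetSum _ fun j _ =>
          (ccξ i j).mul (ccξ i j)
    · exact int_ball _ a (hf.add continuous_const)
    · intro x _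
      exact pt_quad (fun i j => pd j (ξ i) x) (f x) c (hf1 x).1 (hf1 x).2 (hd x) (hd0 x)
        (fun i j => hcu i j x)
  rw [hmix, hquad] at h0
  have b3 := mul_le_mul_of_nonneg_left b2 (by positivity : (0 : ℝ) ≤ (N : ℝ) ^ 2)
  rw [Finset.sum_add_distrib, ← Finset.mul_sum]
  linarith

theorem HH_nonneg {N : ℕ} (a : ℝ) (w : E N → ℝ) : 0 ≤ HH a w := by
  unfold HH
  exact integral_nonneg fun x => by positivity

theorem pf_H0 (hMP : T_MP) (hMO : T_MO) (hGQ : T_GQ) (hI3 : T_I3) (hPX : T_PX) (hDC : T_DC)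
    (hSF : T_SF) (hXI : T_XI) (hCU : T_CU) : T_H0 := by
  intro N L r₁ μ a s t hN hFz hZ0 hμ hra hμa hs ht
  have hNpos : (0 : ℝ) < N := by positivity
  have hμ0 : 0 < μ := by linarith
  have hr₁ := hZ0.pos
  have hr2 : 0 < r₁ / μ := by positivity
  have ha : 0 < a := hr2.trans hra
  have hr21 : r₁ / μ ≤ 1 := by
    rw [div_le_one hμ0]
    linarith [hZ0.lt]
  have hg : ∀ i : Fin N, ContDiff ℝ (⊤ : ℕ∞) (gT L (ee i) : E N → ℝ) := fun i =>
    (hGQ N L a (ee i) hN ha).1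
  have hL := hFz.pos
  -- the constants
  obtain ⟨s₁, hs₁⟩ : ∃ s₁, s₁ = s / (8 * N) := ⟨_, rfl⟩
  have hs₁0 : 0 < s₁ := by rw [hs₁]; positivity
  obtain ⟨rd, hrd, hdv⟩ := dv_low L s₁ hN hs₁0 hg
  obtain ⟨r₀, hr₀⟩ : ∃ r₀, r₀ = min (rd / 4) (r₁ / μ / 4) := ⟨_, rfl⟩
  have hr₀0 : 0 < r₀ := by rw [hr₀]; positivity
  have hr₀1 : r₀ ≤ rd / 4 := by rw [hr₀]; exact min_le_left _ _
  have hr₀2 : r₀ ≤ r₁ / μ / 4 := by rw [hr₀]; exact min_le_right _ _
  have hr₀3 : 2 * r₀ < r₁ / μ := by linarith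
  obtain ⟨α, hα⟩ : ∃ α, α = t / (2 * N * (N + 2)) := ⟨_, rfl⟩
  have hα0 : 0 < α := by rw [hα]; positivity
  obtain ⟨β, hβ⟩ : ∃ β, β = t / (2 * N * (μ ^ 2 * L)) := ⟨_, rfl⟩
  have hβ0 : 0 < β := by rw [hβ]; positivity
  have hα1 : 2 * N * (α * (N + 2)) ≤ t := by
    rw [hα]
    apply le_of_eq
    field_simp
  have hβ1 : 2 * N * (μ ^ 2 * L * β) ≤ t := by
    rw [hβ]
    apply le_of_eq
    field_simp
  obtain ⟨c₃, hc₃⟩ : ∃ c₃, c₃ = 2 * N * (μ ^ 2 * L / (4 * β)) := ⟨_, rfl⟩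
  have hc₃0 : 0 < c₃ := by rw [hc₃]; positivity
  obtain ⟨κ₁, C₁, hκ₁, hC₁, hX⟩ := hXI N r₀ (r₁ / μ) (s / (4 * c₃)) hN hr₀0 hr₀3 hr21
    (by positivity)
  obtain ⟨c₄, hc₄⟩ : ∃ c₄, c₄ = (2 * N * ((1 + (N : ℝ) ^ 2 / 2) * (C₁ ^ 2 / (4 * α))) +
    (N : ℝ) ^ 2 * ((1 + (N : ℝ) ^ 2 / 2) * C₁ ^ 2)) * volume.real (ball (0 : E N) a) :=
    ⟨_, rfl⟩
  have hc₄0 : 0 ≤ c₄ := by rw [hc₄]; positivity
  refine ⟨r₀, min (κ₁ / 2) (s / (8 * (c₄ + 1))), hr₀0, by positivity, ?_⟩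
  intro K G w hK hKr hKv hG hKG hw
  have hPP : ∀ i, 0 ≤ PP L μ a (w i) := fun i =>
    (hI3 N L r₁ μ a hN hFz hZ0 hμ hra hμa).1 (w i) (hw i).1 (hw i).2.1 (hw i).2.2.1
  have hrhs : 0 ≤ ∑ i, (PP L μ a (w i) + t * HH a (w i)) :=
    Finset.sum_nonneg fun i _ => add_nonneg (hPP i) (mul_nonneg ht.le (HH_nonneg a (w i)))
  obtain ⟨kk, hkk⟩ : ∃ kk, kk = volume.real K := ⟨_, rfl⟩
  rw [← hkk]
  have hk0 : 0 ≤ kk := by rw [hkk]; exact measureReal_nonneg
  rcases hk0.eq_or_lt with hk | hk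
  · rw [← hk, mul_zero]
    exact hrhs
  have hκ0 : (0 : ℝ) ≤ min (κ₁ / 2) (s / (8 * (c₄ + 1))) := by positivity
  have hkκ : kk ≤ min (κ₁ / 2) (s / (8 * (c₄ + 1))) := by
    rw [hkk]
    exact ENNReal.toReal_le_of_le_ofReal hκ0 hKv
  have hkκ1 : kk ≤ κ₁ / 2 := hkκ.trans (min_le_left _ _)
  have hkκ2 : kk ≤ s / (8 * (c₄ + 1)) := hkκ.trans (min_le_right _ _)
  have hKc : IsCompact K := (isCompact_closedBall (0 : E N) r₀).of_isClosed_subset hK hKr
  obtain ⟨f, hf1, hf2, hf3, hf4, hf5, hf6⟩ := hSF N K (G ∩ ball (0 : E N) (3 / 2 * r₀)) kk hKc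
    (hG.inter isOpen_ball) (subset_inter hKG fun x hx => by
      have h1 := hKr hx
      rw [mem_closedBall_zero_iff] at h1
      rw [mem_ball_zero_iff]
      linarith) hk
  have hfs : ∀ x, f x ≠ 0 → x ∈ G ∧ ‖x‖ < 3 / 2 * r₀ := by
    intro x hx
    have h1 := hf3 (subset_tsupport f hx)
    exact ⟨h1.1, by rw [← mem_ball_zero_iff]; exact h1.2⟩
  have hf0 : ∀ x, 3 / 2 * r₀ ≤ ‖x‖ → f x = 0 := by
    intro x hx
    by_contra h
    exact absurd (hfs x h).2 (not_lt.2 hx)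
  have hfint : Integrable f := hf1.continuous.integrable_of_hasCompactSupport hf2
  obtain ⟨I, hI⟩ : ∃ I, I = ∫ x, f x := ⟨_, rfl⟩
  have hI1 : I ≤ 2 * kk := by
    rw [hI]
    have := hf6
    rw [← hkk] at this
    linarith
  have hI2 : kk ≤ I := by
    rw [hI, hkk]
    have h1 : ∫ x in K, (1 : ℝ) ≤ ∫ x in K, f x := by
      refine setIntegral_mono_on (integrableOn_const ?_) hfint.integrableOn hK.measurableSet ?_
      · exact hKc.measure_lt_top.ne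
      · intro x hx
        rw [hf5 x hx]
    have h2 : ∫ x in K, f x ≤ ∫ x, f x :=
      setIntegral_le_integral hfint (Filter.Eventually.of_forall fun x => (hf4 x).1)
    have h3 : ∫ x in K, (1 : ℝ) = volume.real K := by
      rw [setIntegral_const, smul_eq_mul, mul_one]
    linarith
  have hI0 : 0 < I := lt_of_lt_of_le hk hI2
  obtain ⟨ξ, hξ1, hξ2, hξ3, hξ4, hξ5⟩ := hX f hf1 hf4 hf0 (by rw [← hI]; linarith)
  rw [← hI] at hξ5
  simp only [← hI] at hξ2 hξ4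
  have hr3 : (2 * r₀ + r₁ / μ) / 2 < r₁ / μ := by linarith
  have hr30 : 0 < (2 * r₀ + r₁ / μ) / 2 := by positivity
  have hr3a : (2 * r₀ + r₁ / μ) / 2 < a := hr3.trans hra
  -- the competitor
  have hcomp : ∀ i, 0 ≤ PP L μ a (w i) + 2 * N * ((∫ x, gd (w i) (ξ i) x) -
      μ ^ 2 * L * ∫ x, w i x * ξ i x) + (N : ℝ) ^ 2 * ∫ x, gd (ξ i) (ξ i) x := by
    intro i
    have z1 : ContDiff ℝ (⊤ : ℕ∞) (fun x => (-(N : ℝ)) * ξ i x) := contDiff_const.mul (hξ1 i).1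
    have z2 : ∀ x, (2 * r₀ + r₁ / μ) / 2 ≤ ‖x‖ → (-(N : ℝ)) * ξ i x = 0 := fun x hx => by
      rw [(hξ1 i).2 x hx, mul_zero]
    have z3 : ContDiff ℝ (⊤ : ℕ∞) (fun x => w i x - (-(N : ℝ)) * ξ i x) := (hw i).1.sub z1
    have z4 : ∀ r : ℝ, (2 * r₀ + r₁ / μ) / 2 ≤ r →
        rs (fun x => w i x - (-(N : ℝ)) * ξ i x) r = rs (w i) r := by
      intro r hr
      funext θ
      change w i (r • (θ : E N)) - (-(N : ℝ)) * ξ i (r • (θ : E N)) = w i (r • (θ : E N))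
      rw [z2 (r • (θ : E N)) (by
        rw [norm_smul_sp, abs_of_nonneg (hr30.le.trans hr)]
        exact hr), sub_zero]
    have z5 := (hI3 N L r₁ μ a hN hFz hZ0 hμ hra hμa).1 _ z3
      (by rw [z4 _ hr3.le]; exact (hw i).2.1)
      (by rw [z4 _ hr3a.le]; exact (hw i).2.2.1)
    rw [hPX N L μ a _ (w i) (fun x => (-(N : ℝ)) * ξ i x) hN hr30 hr3a (hw i).1 z1 z2] at z5
    have z6 : ∫ x, gd (w i) (fun x => (-(N : ℝ)) * ξ i x) x = -(N : ℝ) * ∫ x, gd (w i) (ξ i) x := by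
      rw [← integral_const_mul]
      refine integral_congr_ae (Filter.Eventually.of_forall fun x => ?_)
      change ∑ j, pd j (w i) x * pd j (fun x => (-(N : ℝ)) * ξ i x) x =
        -(N : ℝ) * ∑ j, pd j (w i) x * pd j (ξ i) x
      rw [Finset.mul_sum]
      refine Finset.sum_congr rfl fun j _ => ?_
      rw [pd_mul j _ _ (hξ1 i).1]
      ring
    have z7 : ∫ x, gd (fun x => (-(N : ℝ)) * ξ i x) (fun x => (-(N : ℝ)) * ξ i x) x =
        (N : ℝ) ^ 2 * ∫ x, gd (ξ i) (ξ i) x := by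
      rw [← integral_const_mul]
      refine integral_congr_ae (Filter.Eventually.of_forall fun x => ?_)
      change ∑ j, pd j (fun x => (-(N : ℝ)) * ξ i x) x * pd j (fun x => (-(N : ℝ)) * ξ i x) x =
        (N : ℝ) ^ 2 * ∑ j, pd j (ξ i) x * pd j (ξ i) x
      rw [Finset.mul_sum]
      refine Finset.sum_congr rfl fun j _ => ?_
      rw [pd_mul j _ _ (hξ1 i).1]
      ring
    have z8 : ∫ x, w i x * ((-(N : ℝ)) * ξ i x) = -(N : ℝ) * ∫ x, w i x * ξ i x := by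
      rw [← integral_const_mul]
      refine integral_congr_ae (Filter.Eventually.of_forall fun x => ?_)
      change w i x * ((-(N : ℝ)) * ξ i x) = -(N : ℝ) * (w i x * ξ i x)
      ring
    have z9 : 0 ≤ ∫ x, ((-(N : ℝ)) * ξ i x) ^ 2 := integral_nonneg fun x => sq_nonneg _
    rw [z6, z7, z8] at z5
    have z10 : 0 ≤ μ ^ 2 * L * ∫ x, ((-(N : ℝ)) * ξ i x) ^ 2 := by positivity
    linarith
  have h0 : 0 ≤ ∑ i, PP L μ a (w i) + 2 * N * ((∑ i, ∫ x, gd (w i) (ξ i) x) -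
      μ ^ 2 * L * ∑ i, ∫ x, w i x * ξ i x) + (N : ℝ) ^ 2 * ∑ i, ∫ x, gd (ξ i) (ξ i) x := by
    have h1 := Finset.sum_nonneg fun i (_ : i ∈ (Finset.univ : Finset (Fin N))) => hcomp i
    simp only [Finset.sum_add_distrib, ← Finset.mul_sum, Finset.sum_sub_distrib] at h1
    exact h1
  have hcore := core L μ a ((2 * r₀ + r₁ / μ) / 2) s₁ t (C₁ * I) α β w ξ f hL hr3a hα0 hβ0 hDC
    (fun i => (hw i).1) hξ1 hf1.continuous hf4 (fun x hx => hf0 x (by linarith)) hξ2 hξ3 hξ4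
    (by
      intro x hx
      obtain ⟨hxG, hxr⟩ := hfs x hx
      have h1 := hdv x (by linarith)
      have h2 : dv w x = -∑ i, pd i (gT L (ee i)) x := by
        unfold dv
        rw [← Finset.sum_neg_distrib]
        exact Finset.sum_congr rfl fun i _ => pd_on i _ _ G hG (hw i).2.2.2 x hxG
      rw [h2]
      linarith) h0 hα1 hβ1
  rw [← hI] at hcore
  have e1 : (2 * N * ((1 + (N : ℝ) ^ 2 / 2) * ((C₁ * I) ^ 2 / (4 * α))) +
          (N : ℝ) ^ 2 * ((1 + (N : ℝ) ^ 2 / 2) * (C₁ * I) ^ 2)) * volume.real (ball (0 : E N) a) =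
      c₄ * I ^ 2 := by
    rw [hc₄]
    field_simp
  have e2 : 2 * N * (μ ^ 2 * L / (4 * β)) * ∑ i, ∫ x, ξ i x ^ 2 ≤ s / 4 * I := by
    rw [← hc₃]
    refine (mul_le_mul_of_nonneg_left hξ5 hc₃0.le).trans (le_of_eq ?_)
    field_simp
  have e3 : c₄ * I ^ 2 ≤ s / 4 * I := by
    have h1 : c₄ * I ≤ s / 4 := by
      have h2 : (c₄ + 1) * kk ≤ s / 8 := by
        have h3 := mul_le_mul_of_nonneg_left hkκ2 (by positivity : 0 ≤ c₄ + 1)
        refine h3.trans (le_of_eq ?_)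
        field_simp
      have h4 : c₄ * I ≤ c₄ * (2 * kk) := mul_le_mul_of_nonneg_left hI1 hc₄0
      nlinarith
    calc c₄ * I ^ 2 = (c₄ * I) * I := by ring
      _ ≤ s / 4 * I := mul_le_mul_of_nonneg_right h1 hI0.le
  have e4 : 2 * N * s₁ = s / 4 := by
    rw [hs₁]
    field_simp
    ring
  rw [e1] at hcore
  have e5 : (2 * N * ((N : ℝ) - s₁) - (N : ℝ) ^ 2) * I = ((N : ℝ) ^ 2 - s / 4) * I := by
    have : 2 * N * ((N : ℝ) - s₁) = 2 * (N : ℝ) ^ 2 - 2 * N * s₁ := by ring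
    rw [this, e4]
    ring
  rw [e5] at hcore
  have e6 : ((N : ℝ) ^ 2 - 3 * s / 4) * I ≤ ∑ i, (PP L μ a (w i) + t * HH a (w i)) := by
    nlinarith
  rcases le_or_gt 0 ((N : ℝ) ^ 2 - 3 * s / 4) with h | h
  · have h1 : ((N : ℝ) ^ 2 - 3 * s / 4) * kk ≤ ((N : ℝ) ^ 2 - 3 * s / 4) * I :=
      mul_le_mul_of_nonneg_left hI2 h
    have h2 : ((N : ℝ) ^ 2 - s) * kk ≤ ((N : ℝ) ^ 2 - 3 * s / 4) * kk :=
      mul_le_mul_of_nonneg_right (by linarith) hk.le
    linarith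
  · have h1 : ((N : ℝ) ^ 2 - s) * kk ≤ 0 :=
      mul_nonpos_of_nonpos_of_nonneg (by linarith) hk.le
    linarith

end Pool.Agent.H21.LQ1
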